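import Pool.Agent.Q320.EqTest.Example

/-!
# A graph with `f(G) < c₂(G)/2`
-/

namespace Pool.Agent.Results.MP_01a55a_lc.BelowHalfCTwo

open Filter Topology Finset Pool.Agent.Q320.EqTest Pool.Agent.Q320.EqTest.Example

/-- `m` gives multiplicities at most `2` to edges of `G` such that every cut contains at least two
edges, counted with multiplicity: a spanning 2-edge-connected subgraph using edges at most twice. -/
structure TwoEdgeConn {V : Type} [Fintype V] [DecidableEq V] (G : SimpleGraph V)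
    (m : Sym2 V → ℕ) : Prop where
  le_two : ∀ e, m e ≤ 2
  supp : ∀ e, e ∉ G.edgeSet → m e = 0
  cut : ∀ S : Finset V, S ≠ ∅ → S ≠ univ → 2 ≤ ∑ u ∈ S, ∑ v ∈ Sᶜ, m s(u, v)

/-- `c₂(G)`: the least number of edges, with multiplicity, of such a subgraph. -/
noncomputable def c₂ {V : Type} [Fintype V] [DecidableEq V] (G : SimpleGraph V) : ℕ :=
  sInf {k : ℕ | ∃ m : Sym2 V → ℕ, TwoEdgeConn G m ∧ k = ∑ e, m e}

theorem exists_twoEdgeConn {V : Type} [Fintype V] [DecidableEq V] {G : SimpleGraph V}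
    (hG : G.Connected) : ∃ m : Sym2 V → ℕ, TwoEdgeConn G m := by
  classical
  refine ⟨fun e => if e ∈ G.edgeSet then 2 else 0, fun e => ?_, fun e he => if_neg he, ?_⟩
  · split_ifs <;> norm_num
  · intro S hS hS'
    obtain ⟨u, v, huv, hu, hv⟩ := exists_cross hG S hS hS'
    have h1 : (if s(u, v) ∈ G.edgeSet then 2 else 0) ≤
        ∑ v ∈ Sᶜ, if s(u, v) ∈ G.edgeSet then 2 else 0 :=
      Finset.single_le_sum (f := fun v => if s(u, v) ∈ G.edgeSet then 2 else 0)
        (fun _ _ => Nat.zero_le _) (mem_compl.2 hv)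
    have h2 : ∑ v ∈ Sᶜ, (if s(u, v) ∈ G.edgeSet then 2 else 0) ≤
        ∑ u ∈ S, ∑ v ∈ Sᶜ, if s(u, v) ∈ G.edgeSet then 2 else 0 :=
      Finset.single_le_sum (f := fun u => ∑ v ∈ Sᶜ, if s(u, v) ∈ G.edgeSet then 2 else 0)
        (fun _ _ => Nat.zero_le _) hu
    rw [if_pos ((SimpleGraph.mem_edgeSet G).2 huv)] at h1
    exact h1.trans h2

set_option maxHeartbeats 4000000 in
theorem ten_le (m : Sym2 (Fin 9) → ℕ) (hm : TwoEdgeConn G9 m) : 10 ≤ ∑ e, m e := by
  have hz : ∀ u v : Fin 9, v ∉ nb u → m s(u, v) = 0 := fun u v h =>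
    hm.supp _ (fun h' => h ((SimpleGraph.mem_edgeSet G9).1 h'))
  have hcut : ∀ S : Finset (Fin 9), S ≠ ∅ → S ≠ univ → 2 ≤ ∑ u ∈ S, ∑ v ∈ Sᶜ, m s(u, v) := hm.cut
  have hsymm : ∀ u v : Fin 9, m s(u, v) = m s(v, u) := fun u v => by rw [Sym2.eq_swap]
  have t0 : 2 ≤ m s(0, 1) + m s(0, 2) + m s(0, 6) := by
    have h := hcut {0} (by decide) (by decide)
    rw [show ({0}ᶜ : Finset (Fin 9)) = {1, 2, 3, 4, 5, 6, 7, 8} from by decide] at h
    simp [hz 0 3 (by decide), hz 0 4 (by decide), hz 0 5 (by decide), hz 0 7 (by decide), hz 0 8 (by decide)] at h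
    omega
  have t1 : 2 ≤ m s(0, 1) + m s(1, 2) + m s(1, 7) := by
    have h := hcut {1} (by decide) (by decide)
    rw [show ({1}ᶜ : Finset (Fin 9)) = {0, 2, 3, 4, 5, 6, 7, 8} from by decide] at h
    simp [hz 1 3 (by decide), hz 1 4 (by decide), hz 1 5 (by decide), hz 1 6 (by decide), hz 1 8 (by decide), hsymm 1 0] at h
    omega
  have t2 : 2 ≤ m s(0, 2) + m s(1, 2) + m s(2, 8) := by
    have h := hcut {2} (by decide) (by decide)
    rw [show ({2}ᶜ : Finset (Fin 9)) = {0, 1, 3, 4, 5, 6, 7, 8} from by decide] at h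
    simp [hz 2 3 (by decide), hz 2 4 (by decide), hz 2 5 (by decide), hz 2 6 (by decide), hz 2 7 (by decide), hsymm 2 0, hsymm 2 1] at h
    omega
  have t3 : 2 ≤ m s(3, 4) + m s(3, 5) + m s(3, 6) := by
    have h := hcut {3} (by decide) (by decide)
    rw [show ({3}ᶜ : Finset (Fin 9)) = {0, 1, 2, 4, 5, 6, 7, 8} from by decide] at h
    simp [hz 3 0 (by decide), hz 3 1 (by decide), hz 3 2 (by decide), hz 3 7 (by decide), hz 3 8 (by decide)] at h
    omega
  have t4 : 2 ≤ m s(3, 4) + m s(4, 5) + m s(4, 7) := by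
    have h := hcut {4} (by decide) (by decide)
    rw [show ({4}ᶜ : Finset (Fin 9)) = {0, 1, 2, 3, 5, 6, 7, 8} from by decide] at h
    simp [hz 4 0 (by decide), hz 4 1 (by decide), hz 4 2 (by decide), hz 4 6 (by decide), hz 4 8 (by decide), hsymm 4 3] at h
    omega
  have t5 : 2 ≤ m s(3, 5) + m s(4, 5) + m s(5, 8) := by
    have h := hcut {5} (by decide) (by decide)
    rw [show ({5}ᶜ : Finset (Fin 9)) = {0, 1, 2, 3, 4, 6, 7, 8} from by decide] at h
    simp [hz 5 0 (by decide), hz 5 1 (by decide), hz 5 2 (by decide), hz 5 6 (by decide), hz 5 7 (by decide), hsymm 5 3, hsymm 5 4] at h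
    omega
  have t6 : 2 ≤ m s(0, 6) + m s(3, 6) := by
    have h := hcut {6} (by decide) (by decide)
    rw [show ({6}ᶜ : Finset (Fin 9)) = {0, 1, 2, 3, 4, 5, 7, 8} from by decide] at h
    simp [hz 6 1 (by decide), hz 6 2 (by decide), hz 6 4 (by decide), hz 6 5 (by decide), hz 6 7 (by decide), hz 6 8 (by decide), hsymm 6 0, hsymm 6 3] at h
    omega
  have t7 : 2 ≤ m s(1, 7) + m s(4, 7) := by
    have h := hcut {7} (by decide) (by decide)
    rw [show ({7}ᶜ : Finset (Fin 9)) = {0, 1, 2, 3, 4, 5, 6, 8} from by decide] at h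
    simp [hz 7 0 (by decide), hz 7 2 (by decide), hz 7 3 (by decide), hz 7 5 (by decide), hz 7 6 (by decide), hz 7 8 (by decide), hsymm 7 1, hsymm 7 4] at h
    omega
  have t8 : 2 ≤ m s(2, 8) + m s(5, 8) := by
    have h := hcut {8} (by decide) (by decide)
    rw [show ({8}ᶜ : Finset (Fin 9)) = {0, 1, 2, 3, 4, 5, 6, 7} from by decide] at h
    simp [hz 8 0 (by decide), hz 8 1 (by decide), hz 8 3 (by decide), hz 8 4 (by decide), hz 8 6 (by decide), hz 8 7 (by decide), hsymm 8 2, hsymm 8 5] at h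
    omega
  have t9 : 2 ≤ m s(0, 1) + m s(0, 2) + m s(3, 6) := by
    have h := hcut {0, 6} (by decide) (by decide)
    rw [show ({0, 6}ᶜ : Finset (Fin 9)) = {1, 2, 3, 4, 5, 7, 8} from by decide] at h
    simp [hz 0 3 (by decide), hz 0 4 (by decide), hz 0 5 (by decide), hz 0 7 (by decide), hz 0 8 (by decide), hz 6 1 (by decide), hz 6 2 (by decide), hz 6 4 (by decide), hz 6 5 (by decide), hz 6 7 (by decide), hz 6 8 (by decide), hsymm 6 3] at h
    omega
  have t10 : 2 ≤ m s(0, 1) + m s(1, 2) + m s(4, 7) := by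
    have h := hcut {1, 7} (by decide) (by decide)
    rw [show ({1, 7}ᶜ : Finset (Fin 9)) = {0, 2, 3, 4, 5, 6, 8} from by decide] at h
    simp [hz 1 3 (by decide), hz 1 4 (by decide), hz 1 5 (by decide), hz 1 6 (by decide), hz 1 8 (by decide), hz 7 0 (by decide), hz 7 2 (by decide), hz 7 3 (by decide), hz 7 5 (by decide), hz 7 6 (by decide), hz 7 8 (by decide), hsymm 1 0, hsymm 7 4] at h
    omega
  have t11 : 2 ≤ m s(0, 2) + m s(1, 2) + m s(5, 8) := by
    have h := hcut {2, 8} (by decide) (by decide)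
    rw [show ({2, 8}ᶜ : Finset (Fin 9)) = {0, 1, 3, 4, 5, 6, 7} from by decide] at h
    simp [hz 2 3 (by decide), hz 2 4 (by decide), hz 2 5 (by decide), hz 2 6 (by decide), hz 2 7 (by decide), hz 8 0 (by decide), hz 8 1 (by decide), hz 8 3 (by decide), hz 8 4 (by decide), hz 8 6 (by decide), hz 8 7 (by decide), hsymm 2 0, hsymm 2 1, hsymm 8 5] at h
    omega
  have t12 : 2 ≤ m s(3, 4) + m s(3, 5) + m s(0, 6) := by
    have h := hcut {3, 6} (by decide) (by decide)
    rw [show ({3, 6}ᶜ : Finset (Fin 9)) = {0, 1, 2, 4, 5, 7, 8} from by decide] at h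
    simp [hz 3 0 (by decide), hz 3 1 (by decide), hz 3 2 (by decide), hz 3 7 (by decide), hz 3 8 (by decide), hz 6 1 (by decide), hz 6 2 (by decide), hz 6 4 (by decide), hz 6 5 (by decide), hz 6 7 (by decide), hz 6 8 (by decide), hsymm 6 0] at h
    omega
  have t13 : 2 ≤ m s(3, 4) + m s(4, 5) + m s(1, 7) := by
    have h := hcut {4, 7} (by decide) (by decide)
    rw [show ({4, 7}ᶜ : Finset (Fin 9)) = {0, 1, 2, 3, 5, 6, 8} from by decide] at h
    simp [hz 4 0 (by decide), hz 4 1 (by decide), hz 4 2 (by decide), hz 4 6 (by decide), hz 4 8 (by decide), hz 7 0 (by decide), hz 7 2 (by decide), hz 7 3 (by decide), hz 7 5 (by decide), hz 7 6 (by decide), hz 7 8 (by decide), hsymm 4 3, hsymm 7 1] at h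
    omega
  have t14 : 2 ≤ m s(3, 5) + m s(4, 5) + m s(2, 8) := by
    have h := hcut {5, 8} (by decide) (by decide)
    rw [show ({5, 8}ᶜ : Finset (Fin 9)) = {0, 1, 2, 3, 4, 6, 7} from by decide] at h
    simp [hz 5 0 (by decide), hz 5 1 (by decide), hz 5 2 (by decide), hz 5 6 (by decide), hz 5 7 (by decide), hz 8 0 (by decide), hz 8 1 (by decide), hz 8 3 (by decide), hz 8 4 (by decide), hz 8 6 (by decide), hz 8 7 (by decide), hsymm 5 3, hsymm 5 4, hsymm 8 2] at h
    omega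
  let F : Finset (Sym2 (Fin 9)) := {s(0, 1), s(0, 2), s(1, 2), s(3, 4), s(3, 5), s(4, 5), s(0, 6), s(3, 6), s(1, 7), s(4, 7), s(2, 8), s(5, 8)}
  have hF : ∑ e ∈ F, m e = m s(0, 1) + (m s(0, 2) + (m s(1, 2) + (m s(3, 4) + (m s(3, 5) + (m s(4, 5) + (m s(0, 6) + (m s(3, 6) + (m s(1, 7) + (m s(4, 7) + (m s(2, 8) + (m s(5, 8)))))))))))) := by
    simp only [F]
    rw [Finset.sum_insert (by decide), Finset.sum_insert (by decide), Finset.sum_insert (by decide), Finset.sum_insert (by decide), Finset.sum_insert (by decide), Finset.sum_insert (by decide), Finset.sum_insert (by decide), Finset.sum_insert (by decide), Finset.sum_insert (by decide), Finset.sum_insert (by decide), Finset.sum_insert (by decide), Finset.sum_singleton]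
  have hle : ∑ e ∈ F, m e ≤ ∑ e, m e := Finset.sum_le_sum_of_subset (Finset.subset_univ _)
  have l06 := hm.le_two s(0, 6)
  have l36 := hm.le_two s(3, 6)
  have l17 := hm.le_two s(1, 7)
  have l47 := hm.le_two s(4, 7)
  have l28 := hm.le_two s(2, 8)
  have l58 := hm.le_two s(5, 8)
  omega

theorem le_c₂ {V : Type} [Fintype V] [DecidableEq V] {G : SimpleGraph V} (hG : G.Connected)
    (k : ℕ) (h : ∀ m : Sym2 V → ℕ, TwoEdgeConn G m → k ≤ ∑ e, m e) : k ≤ c₂ G := by
  obtain ⟨m, hm⟩ := exists_twoEdgeConn hG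
  have hne : {k : ℕ | ∃ m : Sym2 V → ℕ, TwoEdgeConn G m ∧ k = ∑ e, m e}.Nonempty :=
    ⟨∑ e, m e, m, hm, rfl⟩
  obtain ⟨m', hm', h'⟩ := Nat.sInf_mem hne
  unfold c₂
  rw [h']
  exact h m' hm'

/-- **A connected graph with `f(G) < c₂(G)/2`.** -/
theorem result : ∃ G : SimpleGraph (Fin 9), G.Connected ∧
    (∀ n : ℕ, ∃ P : Fin 9 → (Fin n → Bool) → Prog (Fin 9), Decides G n P (cost G n)) ∧
    ∃ f : ℝ, Tendsto (fun n : ℕ => (cost G n : ℝ) / n) atTop (𝓝 f) ∧ f < (c₂ G : ℝ) / 2 := by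
  refine ⟨G9, connected, cost_spec connected, 9 / 2, ?_, ?_⟩
  · have h := main connected
    rwa [fc_eq] at h
  · have h1 : 10 ≤ c₂ G9 := le_c₂ connected 10 ten_le
    have h2 : (10 : ℝ) ≤ c₂ G9 := by exact_mod_cast h1
    linarith

end Pool.Agent.Results.MP_01a55a_lc.BelowHalfCTwo
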